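import Pool.Agent.helper92.PI.A3

set_option autoImplicit false

/-! # Project PI: module C2 (one stage, random part) -/

namespace Pool.Agent.helper87.PI

open Finset

section field

variable {X Y : Type} [Fintype X] [Fintype Y] [DecidableEq X] [DecidableEq Y]

/-- pi:C2 -- one stage, random part: choose the set `a \ a'` of deactivated vertices -/
theorem noise (φ : Y → X → ℝ) (hφ0 : ∀ y x, 0 ≤ φ y x) (κ Λ f : ℝ) (hκ : 0 < κ)
    (hφκ : ∀ y x, φ y x * κ ≤ 1) (a : Finset Y) (h1 : ∀ y ∈ a, ∑ x, φ y x = 1) (Δ : ℕ)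
    (hdx : ∀ x, (a.filter (fun y => φ y x ≠ 0)).card ≤ Δ)
    (hdy : ∀ y ∈ a, (univ.filter (fun x => φ y x ≠ 0)).card ≤ Δ)
    (hΛ : 8 * ((Δ : ℝ) ^ 2 + 1) ≤ Real.exp Λ)
    (hf : 160 * Λ ≤ f * κ) (hf5 : 5 * f ≤ 1) (hS2 : ∀ x, S φ a x ≤ 2)
    (n : X → ℝ) (hn : ∀ x, |n x| ≤ f) :
    ∃ a' ⊆ a, ∀ x, |S φ a' x -
      (S φ a x - 4 * f * S φ a x - (1 - 4 * f) * ∑ y ∈ a, φ y x * ∑ x', φ y x' * n x')| ≤ f / 2 := by
  have hΛ0 : 0 < Λ := by
    by_contra hcon
    have h2 : Real.exp Λ ≤ 1 := Real.exp_le_one_iff.2 (not_lt.1 hcon)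
    have h3 : (0 : ℝ) ≤ (Δ : ℝ) ^ 2 := by positivity
    linarith
  have hf0 : 0 < f := by
    by_contra hcon
    have : f * κ ≤ 0 := mul_nonpos_of_nonpos_of_nonneg (not_lt.1 hcon) hκ.le
    linarith
  set m : Y → ℝ := fun y => ∑ x', φ y x' * n x' with hm
  have hmf : ∀ y ∈ a, |m y| ≤ f := by
    intro y hy
    calc |m y| ≤ ∑ x', |φ y x' * n x'| := Finset.abs_sum_le_sum_abs _ _
      _ ≤ ∑ x', φ y x' * f := by
          apply Finset.sum_le_sum
          intro x _
          rw [abs_mul, abs_of_nonneg (hφ0 y x)]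
          exact mul_le_mul_of_nonneg_left (hn x) (hφ0 y x)
      _ = f := by rw [← Finset.sum_mul, h1 y hy, one_mul]
  set δ : Y → ℝ := fun y => 4 * f + (1 - 4 * f) * m y with hδ
  have hδ0 : ∀ y ∈ a, 0 ≤ δ y ∧ δ y ≤ 5 * f := by
    intro y hy
    have h2 := abs_le.1 (hmf y hy)
    simp only [hδ]
    constructor
    · nlinarith
    · nlinarith
  set p : Y → ℝ := fun y => if y ∈ a then δ y else 0 with hp
  have hp0 : ∀ y, 0 ≤ p y ∧ p y ≤ 1 := by
    intro y
    simp only [hp]
    split_ifs with h
    · exact ⟨(hδ0 y h).1, (hδ0 y h).2.trans hf5⟩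
    · exact ⟨le_rfl, zero_le_one⟩
  have hpa : ∀ y ∈ a, p y = δ y := by
    intro y hy
    simp only [hp, if_pos hy]
  obtain ⟨ω, hω⟩ := master (fun (y : Y) (t : Bool) => if t then p y else 1 - p y)
    (by
      intro y t
      cases t
      · simp only [Bool.false_eq_true, if_false]
        linarith [(hp0 y).2]
      · simp only [if_true]
        exact (hp0 y).1)
    (by
      intro y
      rw [Fintype.sum_bool]
      simp)
    (fun x => a.filter (fun y => φ y x ≠ 0)) Δ Δ hdx
    (by
      intro y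
      by_cases hy : y ∈ a
      · refine le_trans (Finset.card_le_card ?_) (hdy y hy)
        intro x hx
        simp only [Finset.mem_filter, Finset.mem_univ, true_and] at hx ⊢
        exact hx.2
      · rw [Finset.filter_false_of_mem]
        · simp
        · intro x _ hx
          exact hy (Finset.mem_filter.1 hx).1)
    (fun x y t => φ y x * ((if t then (0 : ℝ) else 1) - (1 - p y)))
    (by
      intro x y _
      rw [Fintype.sum_bool]
      simp only [if_true, Bool.false_eq_true, if_false]
      ring)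
    (fun _ => 1 / κ) (fun _ => 10 * f / κ) (fun _ => f / 2) Λ
    (by intro _; positivity)
    (by
      intro x y _ t
      rw [abs_mul, abs_of_nonneg (hφ0 y x)]
      have h2 : |(if t then (0 : ℝ) else 1) - (1 - p y)| ≤ 1 := by
        have h3 := hp0 y
        cases t
        · simp only [Bool.false_eq_true, if_false]
          rw [abs_le]
          constructor <;> linarith
        · simp only [if_true]
          rw [abs_le]
          constructor <;> linarith
      have h3 : φ y x ≤ 1 / κ := by
        rw [le_div_iff₀ hκ]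
        exact hφκ y x
      calc φ y x * |(if t then (0 : ℝ) else 1) - (1 - p y)| ≤ φ y x * 1 :=
            mul_le_mul_of_nonneg_left h2 (hφ0 y x)
        _ ≤ 1 / κ := by rw [mul_one]; exact h3)
    (by
      intro x
      have h2 : ∀ y ∈ a.filter (fun y => φ y x ≠ 0),
          ∑ t : Bool, (if t then p y else 1 - p y) *
            (φ y x * ((if t then (0 : ℝ) else 1) - (1 - p y))) ^ 2 ≤ φ y x * (5 * f / κ) := by
        intro y hy
        have hya := (Finset.mem_filter.1 hy).1
        rw [Fintype.sum_bool]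
        simp only [if_true, Bool.false_eq_true, if_false]
        have h3 : φ y x ≤ 1 / κ := by
          rw [le_div_iff₀ hκ]
          exact hφκ y x
        have h4 := hp0 y
        have h5 : p y ≤ 5 * f := by rw [hpa y hya]; exact (hδ0 y hya).2
        have e : p y * (φ y x * (0 - (1 - p y))) ^ 2 + (1 - p y) * (φ y x * (1 - (1 - p y))) ^ 2 =
            φ y x * (φ y x * (p y * (1 - p y))) := by ring
        rw [e]
        apply mul_le_mul_of_nonneg_left _ (hφ0 y x)
        have h6 : p y * (1 - p y) ≤ 5 * f := by nlinarith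
        have h7 : 0 ≤ p y * (1 - p y) := mul_nonneg h4.1 (by linarith)
        calc φ y x * (p y * (1 - p y)) ≤ 1 / κ * (5 * f) :=
              mul_le_mul h3 h6 h7 (by positivity)
          _ = 5 * f / κ := by ring
      refine (Finset.sum_le_sum h2).trans ?_
      rw [← Finset.sum_mul]
      have h3 : ∑ y ∈ a.filter (fun y => φ y x ≠ 0), φ y x ≤ S φ a x :=
        Finset.sum_le_sum_of_subset_of_nonneg (Finset.filter_subset _ _) fun y _ _ => hφ0 y x
      have h4 : 0 ≤ 5 * f / κ := by positivity
      calc (∑ y ∈ a.filter (fun y => φ y x ≠ 0), φ y x) * (5 * f / κ) ≤ 2 * (5 * f / κ) :=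
            mul_le_mul_of_nonneg_right (h3.trans (hS2 x)) h4
        _ = 10 * f / κ := by ring)
    (by
      intro _
      have h2 : 4 * Λ * (10 * f / κ) = (40 * Λ * f) / κ := by ring
      rw [h2, div_le_iff₀ hκ]
      nlinarith)
    (by
      intro _
      have h2 : 2 * Λ * (1 / κ) = (2 * Λ) / κ := by ring
      rw [h2, div_le_iff₀ hκ]
      nlinarith)
    (by
      rw [← pow_two]
      exact hΛ)
  refine ⟨a.filter (fun y => ω y = false), Finset.filter_subset _ _, ?_⟩
  intro x
  have h2 := hω x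
  have h3 : ∑ y ∈ a.filter (fun y => φ y x ≠ 0),
      φ y x * ((if ω y then (0 : ℝ) else 1) - (1 - p y)) =
      ∑ y ∈ a, φ y x * ((if ω y then (0 : ℝ) else 1) - (1 - p y)) := by
    apply Finset.sum_subset (Finset.filter_subset _ _)
    intro y hy hy'
    rw [Finset.mem_filter, not_and_not_right] at hy'
    rw [hy' hy, zero_mul]
  have h4 : ∑ y ∈ a, φ y x * ((if ω y then (0 : ℝ) else 1) - (1 - p y)) =
      S φ (a.filter (fun y => ω y = false)) x -
      (S φ a x - 4 * f * S φ a x - (1 - 4 * f) * ∑ y ∈ a, φ y x * ∑ x', φ y x' * n x') := by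
    unfold S
    rw [Finset.sum_filter, Finset.mul_sum, Finset.mul_sum, ← Finset.sum_sub_distrib,
      ← Finset.sum_sub_distrib, ← Finset.sum_sub_distrib]
    apply Finset.sum_congr rfl
    intro y hy
    rw [hpa y hy]
    simp only [hδ, hm]
    cases ω y
    · simp only [Bool.false_eq_true, if_false, if_true]
      ring
    · simp only [if_true, Bool.true_eq_false, if_false]
      ring
  rw [h3, h4] at h2
  exact h2

end field

end Pool.Agent.helper87.PI
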