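import Pool.Agent.helper52.PI.C2
import Pool.Agent.helper6.PI.C1

set_option autoImplicit false

/-! # Project PI: module C3 (one stage of noise compensation) -/

namespace Pool.Agent.helper87.PI

open Finset

section field

variable {X Y : Type} [Fintype X] [Fintype Y] [DecidableEq X] [DecidableEq Y]

omit [Fintype Y] [DecidableEq X] in
lemma C3_bd (φ : Y → X → ℝ) (hφ0 : ∀ y x, 0 ≤ φ y x) (a a' : Finset Y) (haa : a' ⊆ a)
    (h1 : ∀ y ∈ a, ∑ x, φ y x = 1) (U : Finset X) :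
    bd φ a U ≤ bd φ a' U + ∑ x ∈ U, (S φ a x - S φ a' x) := by
  unfold bd S
  have e1 : ∑ x ∈ U, (∑ y ∈ a, φ y x - ∑ y ∈ a', φ y x) = ∑ y ∈ a \ a', ∑ x ∈ U, φ y x := by
    rw [Finset.sum_comm (s := a \ a')]
    apply Finset.sum_congr rfl
    intro x _
    rw [← Finset.sum_sdiff haa]
    ring
  rw [e1, ← Finset.sum_sdiff haa, add_comm]
  apply add_le_add_right
  apply Finset.sum_le_sum
  intro y hy
  have hya := (Finset.mem_sdiff.1 hy).1
  have h2 : 0 ≤ ∑ x ∈ U, φ y x := Finset.sum_nonneg fun x _ => hφ0 y x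
  have h3 : ∑ x ∈ U, φ y x ≤ 1 := by
    rw [← h1 y hya]
    exact Finset.sum_le_sum_of_subset_of_nonneg (Finset.subset_univ _) fun x _ _ => hφ0 y x
  nlinarith

/-- pi:C3 -- one stage of noise compensation -/
theorem stage (φ : Y → X → ℝ) (hφ0 : ∀ y x, 0 ≤ φ y x) (κ Λ f : ℝ) (hκ : 0 < κ)
    (hφκ : ∀ y x, φ y x * κ ≤ 1) (a : Finset Y) (h1 : ∀ y ∈ a, ∑ x, φ y x = 1) (Δ : ℕ)
    (hdx : ∀ x, (a.filter (fun y => φ y x ≠ 0)).card ≤ Δ)
    (hdy : ∀ y ∈ a, (univ.filter (fun x => φ y x ≠ 0)).card ≤ Δ)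
    (hΛ : 8 * ((Δ : ℝ) ^ 2 + 1) ≤ Real.exp Λ)
    (hf : 160 * Λ ≤ f * κ) (hf5 : 5 * f ≤ 1) (A B μ ε : ℝ) (hA : 0 ≤ A) (hB : 0 ≤ B)
    (hε : ε ≤ 1) (hst : St φ a f A B μ ε) :
    ∃ a' ⊆ a, St φ a' (f / 2) (A + 2 * f) (B + (A + 2 * f) * (11 * f) + f * ε)
      ((1 - 4 * f) * μ) (ε + 11 * f) := by
  obtain ⟨n, ρ, hS, hn, hρ⟩ := hst.ex
  have hnear := hst.near
  have hΛ0 : 0 < Λ := by
    by_contra hcon
    have h2 : Real.exp Λ ≤ 1 := Real.exp_le_one_iff.2 (not_lt.1 hcon)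
    have h3 : (0 : ℝ) ≤ (Δ : ℝ) ^ 2 := by positivity
    linarith
  have hf0 : 0 < f := by
    by_contra hcon
    have : f * κ ≤ 0 := mul_nonpos_of_nonpos_of_nonneg (not_lt.1 hcon) hκ.le
    linarith
  have hS2 : ∀ x, S φ a x ≤ 2 := by
    intro x
    have := abs_le.1 (hnear x)
    linarith
  obtain ⟨a', ha', hE⟩ := noise φ hφ0 κ Λ f hκ hφκ a h1 Δ hdx hdy hΛ hf hf5 hS2 n hn
  set Kn : X → ℝ := fun x => ∑ y ∈ a, φ y x * ∑ x', φ y x' * n x' with hKn
  have hKf : ∀ x, |Kn x| ≤ 2 * f := by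
    intro x
    calc |Kn x| ≤ ∑ y ∈ a, |φ y x * ∑ x', φ y x' * n x'| := Finset.abs_sum_le_sum_abs _ _
      _ ≤ ∑ y ∈ a, φ y x * f := by
          apply Finset.sum_le_sum
          intro y hy
          rw [abs_mul, abs_of_nonneg (hφ0 y x)]
          apply mul_le_mul_of_nonneg_left _ (hφ0 y x)
          calc |∑ x', φ y x' * n x'| ≤ ∑ x', |φ y x' * n x'| := Finset.abs_sum_le_sum_abs _ _
            _ ≤ ∑ x', φ y x' * f := by
                apply Finset.sum_le_sum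
                intro x' _
                rw [abs_mul, abs_of_nonneg (hφ0 y x')]
                exact mul_le_mul_of_nonneg_left (hn x') (hφ0 y x')
            _ = f := by rw [← Finset.sum_mul, h1 y hy, one_mul]
      _ = S φ a x * f := by rw [← Finset.sum_mul]; rfl
      _ ≤ 2 * f := mul_le_mul_of_nonneg_right (hS2 x) hf0.le
  have hSdiff : ∀ x, 0 ≤ S φ a x - S φ a' x ∧ S φ a x - S φ a' x ≤ 11 * f := by
    intro x
    constructor
    · have : S φ a' x ≤ S φ a x :=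
        Finset.sum_le_sum_of_subset_of_nonneg ha' fun y _ _ => hφ0 y x
      linarith
    · have h2 := abs_le.1 (hE x)
      have h3 := abs_le.1 (hKf x)
      have h4 := hS2 x
      have h5 : (1 - 4 * f) * Kn x ≤ 2 * f := by nlinarith
      have h6 : 4 * f * S φ a x ≤ 8 * f := by nlinarith
      have h7 := h2.1
      simp only [hKn] at h5
      linarith
  refine ⟨a', ha', ⟨⟨fun x => S φ a' x - (S φ a x - 4 * f * S φ a x - (1 - 4 * f) * Kn x),
    fun x => (1 - 4 * f) * (ρ x + (n x - Kn x)), ?_, ?_, ?_⟩, ?_⟩⟩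
  · intro x
    show S φ a' x = (1 - 4 * f) * μ + (1 - 4 * f) * (ρ x + (n x - Kn x)) +
      (S φ a' x - (S φ a x - 4 * f * S φ a x - (1 - 4 * f) * Kn x))
    rw [hS x]
    ring
  · intro x
    exact hE x
  · intro U
    rw [← Finset.mul_sum, Finset.sum_add_distrib, abs_mul, abs_of_nonneg (by linarith)]
    have h2 := hρ U
    have h3 := route φ hφ0 a h1 n f ε hn hnear U
    have h4 : |∑ x ∈ U, ρ x + ∑ x ∈ U, (n x - Kn x)| ≤
        (A + 2 * f) * bd φ a U + (B + f * ε) * (U.card : ℝ) := by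
      refine (abs_add_le _ _).trans ?_
      have h3' : |∑ x ∈ U, (n x - Kn x)| ≤ 2 * f * bd φ a U + f * ε * (U.card : ℝ) := h3
      linarith
    have h5 := C3_bd φ hφ0 a a' ha' h1 U
    have h6 : ∑ x ∈ U, (S φ a x - S φ a' x) ≤ 11 * f * (U.card : ℝ) := by
      calc ∑ x ∈ U, (S φ a x - S φ a' x) ≤ ∑ x ∈ U, 11 * f :=
            Finset.sum_le_sum fun x _ => (hSdiff x).2
        _ = 11 * f * (U.card : ℝ) := by rw [Finset.sum_const, nsmul_eq_mul]; ring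
    have h7 : (A + 2 * f) * bd φ a U ≤ (A + 2 * f) * (bd φ a' U + 11 * f * (U.card : ℝ)) :=
      mul_le_mul_of_nonneg_left (by linarith) (by linarith)
    have h8 : 0 ≤ |∑ x ∈ U, ρ x + ∑ x ∈ U, (n x - Kn x)| := abs_nonneg _
    have h9 : (1 - 4 * f) * |∑ x ∈ U, ρ x + ∑ x ∈ U, (n x - Kn x)| ≤
        |∑ x ∈ U, ρ x + ∑ x ∈ U, (n x - Kn x)| := by nlinarith
    calc (1 - 4 * f) * |∑ x ∈ U, ρ x + ∑ x ∈ U, (n x - Kn x)|
        ≤ |∑ x ∈ U, ρ x + ∑ x ∈ U, (n x - Kn x)| := h9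
      _ ≤ (A + 2 * f) * bd φ a U + (B + f * ε) * (U.card : ℝ) := h4
      _ ≤ (A + 2 * f) * (bd φ a' U + 11 * f * (U.card : ℝ)) + (B + f * ε) * (U.card : ℝ) := by
          linarith
      _ = _ := by ring
  · intro x
    have h2 := hSdiff x
    have h3 := abs_le.1 (hnear x)
    rw [abs_le]
    constructor <;> linarith

end field

end Pool.Agent.helper87.PI
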